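import Pool.Agent.Work.MP_ca0f09_nt.Main2
import Pool.Agent.Work.MP_ca0f09_nt.Construct
import Pool.Agent.Work.MP_ca0f09_nt.UnifMR

set_option autoImplicit false
open Filter Topology

namespace Pool.Agent.Results.MP_ca0f09_nt.TwoOddExponents

/-- Chowla's conjecture for the Moebius function, with ordinary (Cesaro) averages along all
`N`, for every tuple of distinct shifts in which at most two exponents are equal to `1`. -/
theorem result :
    ∀ (k : ℕ) (h : Fin k → ℕ) (a : Fin k → ℕ), Function.Injective h →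
      (∀ i, a i = 1 ∨ a i = 2) → (∃ i, a i = 1) →
      (Finset.univ.filter fun i => a i = 1).card ≤ 2 →
        Tendsto (fun N : ℕ => (1 / (N : ℝ)) *
            ∑ n ∈ Finset.range N,
              ∏ i, (((ArithmeticFunction.moebius (n + h i) : ℤ) : ℝ)) ^ (a i))
          atTop (𝓝 0) := by
  intro k h a hinj ha hex hcard
  exact Pool.Agent.Work.MP_ca0f09_nt.chowla_le_two
    (Pool.Agent.Work.MP_ca0f09_nt.twoPt_of_free
      (fun h W hh hW ε hε hε1 => Pool.Agent.Work.MP_ca0f09_nt.exists_sys h W hh hW ε hε hε1)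
      (Pool.Agent.Work.MP_ca0f09_nt.free_of_unif Pool.Agent.Work.MP_ca0f09_nt.unif))
    k h a hinj ha hex hcard

end Pool.Agent.Results.MP_ca0f09_nt.TwoOddExponents
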